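import Pool.Agent.X286.Cr.Wrap

/-!
# Supersaturation for clique counts in graphs with `m` edges (MP_79ff05_co, Q1: yes)

For all `r ≥ s ≥ 3` and `ε > 0` there are `δ > 0` and `m₀` such that every finite graph `G` with
`m ≥ m₀` edges and at least `mex_{K_s}(m, K_{r+1}) + ε m ^ (s/2)` copies of `K_s` contains at least
`δ m ^ ((r+1)/2)` copies of `K_{r+1}`.

Proof.  Suppose that `G` has fewer copies of `K_{r+1}`.  The vertices of degree less than `η √m` lie
in at most `∑ deg ^ (s-1) ≤ 2 η m ^ (s/2)` copies of `K_s`; the others are at most `2 √m / η`, so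
that the clique removal lemma (`Pool.Agent.X286.Cr.removal_ncard`, proved from Szemeredi's
regularity lemma) makes the graph on them `K_{r+1}`-free at the cost of few edges and of few copies
of `K_s`.  Disjoint edges complete the number of edges to `m`.
-/

set_option autoImplicit false

namespace Pool.Agent.Results.MP_79ff05_co.Supersaturation

open Finset Pool.Agent.X286.Cr

/-- `k_s(G)`: the number of `s`-element vertex sets spanning a complete subgraph. -/
noncomputable def cliqueCount {V : Type} (s : ℕ) (G : SimpleGraph V) : ℕ :=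
  {t : Finset V | G.IsNClique s t}.ncard

/-- `mex_{K_s}(m, K_q)`: the largest number of copies of `K_s` in a finite graph with exactly `m`
edges and without a copy of `K_q` (see `mex_isGreatest`). -/
noncomputable def mex (s q m : ℕ) : ℕ :=
  sSup {k : ℕ | ∃ (V : Type) (_ : Finite V) (G : SimpleGraph V),
    G.edgeSet.ncard = m ∧ G.CliqueFree q ∧ cliqueCount s G = k}

theorem bdd (s q m : ℕ) (hs : 2 ≤ s) :
    BddAbove {k : ℕ | ∃ (V : Type) (_ : Finite V) (G : SimpleGraph V),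
      G.edgeSet.ncard = m ∧ G.CliqueFree q ∧ cliqueCount s G = k} := by
  refine ⟨2 ^ m, ?_⟩
  rintro k ⟨V, _, G, hm, _, rfl⟩
  rw [← hm]
  exact kc_le_pow s hs G

/-- monotonicity in the number of edges -/
theorem le_mex {V : Type} [Finite V] (H : SimpleGraph V) (s q m : ℕ) (hs : 2 ≤ s) (hq : 3 ≤ q)
    (hH : H.CliqueFree q) (hm : H.edgeSet.ncard ≤ m) : cliqueCount s H ≤ mex s q m := by
  obtain ⟨k, hk⟩ := Nat.exists_eq_add_of_le hm
  have h1 : cliqueCount s (addE H k) ≤ mex s q m := by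
    apply le_csSup (bdd s q m hs)
    refine ⟨V ⊕ (Fin k × Bool), inferInstance, addE H k, ?_, addE_free H k q hq hH, rfl⟩
    rw [addE_edges, hk]
  exact (kc_addE H k s).trans h1

/-- `mex` is a maximum -/
theorem mex_isGreatest (s q m : ℕ) (hs : 2 ≤ s) (hq : 3 ≤ q) :
    IsGreatest {k : ℕ | ∃ (V : Type) (_ : Finite V) (G : SimpleGraph V),
      G.edgeSet.ncard = m ∧ G.CliqueFree q ∧ cliqueCount s G = k} (mex s q m) := by
  refine ⟨Nat.sSup_mem ?_ (bdd s q m hs), fun k hk => le_csSup (bdd s q m hs) hk⟩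
  have h0 : (⊥ : SimpleGraph Empty).CliqueFree q := SimpleGraph.cliqueFree_bot (by omega)
  refine ⟨_, _, inferInstance, addE (⊥ : SimpleGraph Empty) m, ?_, addE_free _ m q hq h0, rfl⟩
  rw [addE_edges]
  simp

/-- **Supersaturation.** -/
theorem result (r s : ℕ) (hs : 3 ≤ s) (hsr : s ≤ r) (ε : ℝ) (hε : 0 < ε) :
    ∃ δ : ℝ, 0 < δ ∧ ∃ m₀ : ℕ, ∀ (V : Type) [Finite V] (G : SimpleGraph V) (m : ℕ),
      m₀ ≤ m → G.edgeSet.ncard = m →
      (mex s (r + 1) m : ℝ) + ε * (m : ℝ) ^ ((s : ℝ) / 2) ≤ cliqueCount s G →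
      δ * (m : ℝ) ^ (((r : ℝ) + 1) / 2) ≤ cliqueCount (r + 1) G := by
  classical
  obtain ⟨s, rfl⟩ : ∃ s', s = s' + 3 := ⟨s - 3, by omega⟩
  obtain ⟨η, hη⟩ : ∃ η, η = min (ε / 8) 1 := ⟨_, rfl⟩
  have hη0 : 0 < η := by rw [hη]; positivity
  have hη1 : η ≤ 1 := by rw [hη]; exact min_le_right _ _
  have hη2 : η ≤ ε / 8 := by rw [hη]; exact min_le_left _ _
  obtain ⟨δ, hδ, H0⟩ := removal_ncard (r + 1) (by omega) (ε / 4 * (η / 2) ^ (s + 3))
    (by positivity)
  refine ⟨δ, hδ, 1, ?_⟩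
  intro V _ G m hm0 hm hG
  cases nonempty_fintype V
  by_contra hcon
  push Not at hcon
  obtain ⟨x, hx⟩ : ∃ x, x = √(m : ℝ) := ⟨_, rfl⟩
  have hm1 : (1 : ℝ) ≤ m := by exact_mod_cast hm0
  have hx1 : 1 ≤ x := by rw [hx]; exact Real.one_le_sqrt.2 hm1
  have hx0 : 0 < x := by linarith
  have hxm : (m : ℝ) = x ^ 2 := by rw [hx, Real.sq_sqrt (by positivity)]
  have hpow : ∀ k : ℕ, (m : ℝ) ^ ((k : ℝ) / 2) = x ^ k := by
    intro k
    rw [hx, Real.sqrt_eq_rpow, ← Real.rpow_natCast, ← Real.rpow_mul (by positivity)]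
    congr 1
    ring
  have hp1 := hpow (s + 3)
  have hp2 := hpow (r + 1)
  rw [show (((r + 1 : ℕ) : ℝ)) = (r : ℝ) + 1 by push_cast; rfl] at hp2
  rw [hp1] at hG
  rw [hp2] at hcon
  change _ ≤ (kc (s + 3) G : ℝ) at hG
  change (kc (r + 1) G : ℝ) < _ at hcon
  -- the vertices of large degree
  obtain ⟨A, hA⟩ : ∃ A : Finset V, A = univ.filter (fun v => η * x ≤ (G.degree v : ℝ)) :=
    ⟨_, rfl⟩
  obtain ⟨M, hM⟩ : ∃ M, M = 2 * x / η := ⟨_, rfl⟩
  have hxM : x ≤ M := by
    rw [hM, le_div_iff₀ hη0]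
    nlinarith
  have hdeg : ∑ v, (G.degree v : ℝ) = 2 * x ^ 2 := by
    have h1 := G.sum_degrees_eq_twice_card_edges
    have h2 : #G.edgeFinset = m := by
      rw [← hm, Set.ncard_eq_toFinset_card']
      rfl
    rw [h2] at h1
    rw [← hxm]
    exact_mod_cast h1
  have hAc : (#A : ℝ) ≤ M := by
    rw [hM, le_div_iff₀ hη0]
    have h1 : (#A : ℝ) * (η * x) ≤ 2 * x ^ 2 := by
      rw [← hdeg]
      calc (#A : ℝ) * (η * x) = ∑ _v ∈ A, η * x := by rw [sum_const, nsmul_eq_mul]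
        _ ≤ ∑ v ∈ A, (G.degree v : ℝ) := sum_le_sum (fun v hv => by
            rw [hA, mem_filter] at hv; exact hv.2)
        _ ≤ _ := sum_le_sum_of_subset_of_nonneg (subset_univ _) (fun v _ _ => Nat.cast_nonneg _)
    have h2 : (#A : ℝ) * η * x ≤ 2 * x * x := by nlinarith
    exact le_of_mul_le_mul_right h2 hx0
  obtain ⟨G', hG'⟩ : ∃ G' : SimpleGraph {v // v ∈ A},
    G' = G.comap (Subtype.val : {v // v ∈ A} → V) := ⟨_, rfl⟩
  have hlow := kc_low G A (s + 3)
  have hcl := kc_comap G A (r + 1)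
  have hed := comap_edges G A
  rw [← hG'] at hlow hcl hed
  have hcard : (Fintype.card {v // v ∈ A} : ℝ) ≤ M := by
    rw [Fintype.card_coe]; exact hAc
  have hM0 : 0 ≤ M := hx0.le.trans hxM
  have hfew : (kc (r + 1) G' : ℝ) < δ * M ^ (r + 1) := by
    have h1 : (kc (r + 1) G' : ℝ) ≤ kc (r + 1) G := by
      exact_mod_cast hcl
    calc _ ≤ _ := h1
      _ < _ := hcon
      _ ≤ _ := by gcongr
  obtain ⟨H, hHG, hfree, hlost⟩ := H0 {v // v ∈ A} G' M hcard hfew
  have hmex := le_mex H (s + 3) (r + 1) m (by omega) (by omega) hfree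
    ((Set.ncard_le_ncard (SimpleGraph.edgeSet_mono hHG) (Set.toFinite _)).trans (hed.trans hm.le))
  change kc (s + 3) H ≤ _ at hmex
  have hl := kc_lost G' H (s + 1)
  -- the cliques at vertices of small degree
  have hsmall : (∑ v ∈ Aᶜ, (G.degree v : ℝ) ^ (s + 2)) ≤ 2 * η * x ^ (s + 3) := by
    calc (∑ v ∈ Aᶜ, (G.degree v : ℝ) ^ (s + 2))
        ≤ ∑ v ∈ Aᶜ, (G.degree v : ℝ) * (η * x ^ (s + 1)) := by
          apply sum_le_sum
          intro v hv
          rw [mem_compl, hA, mem_filter, not_and, not_le] at hv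
          have h1 := hv (mem_univ _)
          have h2 : (G.degree v : ℝ) ^ (s + 1) ≤ η * x ^ (s + 1) := by
            calc (G.degree v : ℝ) ^ (s + 1) ≤ (η * x) ^ (s + 1) := by gcongr
              _ = η ^ (s + 1) * x ^ (s + 1) := mul_pow _ _ _
              _ ≤ η * x ^ (s + 1) := by
                  gcongr
                  calc η ^ (s + 1) = η ^ s * η := pow_succ _ _
                    _ ≤ 1 * η := by
                        gcongr
                        exact pow_le_one₀ hη0.le hη1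
                    _ = η := one_mul _
          calc (G.degree v : ℝ) ^ (s + 2) = (G.degree v : ℝ) * (G.degree v : ℝ) ^ (s + 1) := by
                ring
            _ ≤ _ := mul_le_mul_of_nonneg_left h2 (Nat.cast_nonneg _)
      _ ≤ ∑ v, (G.degree v : ℝ) * (η * x ^ (s + 1)) :=
          sum_le_sum_of_subset_of_nonneg (subset_univ _) (fun v _ _ => by positivity)
      _ = (2 * x ^ 2) * (η * x ^ (s + 1)) := by rw [← sum_mul, hdeg]
      _ = 2 * η * x ^ (s + 3) := by ring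
  have hlow' : (kc (s + 3) G : ℝ) ≤ kc (s + 3) G' + 2 * η * x ^ (s + 3) := by
    have h1 : (kc (s + 3) G : ℝ) ≤ kc (s + 3) G' +
        ∑ v ∈ Aᶜ, (G.degree v : ℝ) ^ (s + 3 - 1) := by exact_mod_cast hlow
    have h2 : s + 3 - 1 = s + 2 := by omega
    rw [h2] at h1
    linarith
  have hl' : (kc (s + 3) G' : ℝ) ≤ kc (s + 3) H + ε / 4 * x ^ (s + 3) := by
    have h1 : (kc (s + 3) G' : ℝ) ≤ kc (s + 3) H +
        ({p : {v // v ∈ A} × {v // v ∈ A} | G'.Adj p.1 p.2 ∧ ¬ H.Adj p.1 p.2}.ncard : ℝ) *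
          (Fintype.card {v // v ∈ A} : ℝ) ^ (s + 1) := by
      exact_mod_cast hl
    have h2 : ({p : {v // v ∈ A} × {v // v ∈ A} | G'.Adj p.1 p.2 ∧ ¬ H.Adj p.1 p.2}.ncard : ℝ) *
          (Fintype.card {v // v ∈ A} : ℝ) ^ (s + 1) ≤
        (ε / 4 * (η / 2) ^ (s + 3) * M ^ 2) * M ^ (s + 1) := by
      gcongr
    have h3 : (ε / 4 * (η / 2) ^ (s + 3) * M ^ 2) * M ^ (s + 1) = ε / 4 * x ^ (s + 3) := by
      have h4 : x = η / 2 * M := by
        rw [hM]; field_simp
      conv_rhs => rw [h4, mul_pow]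
      ring
    linarith
  have hmex' : (kc (s + 3) H : ℝ) ≤ mex (s + 3) (r + 1) m := by exact_mod_cast hmex
  have hxs : 0 < x ^ (s + 3) := by positivity
  have h9 : 2 * η * x ^ (s + 3) ≤ ε / 4 * x ^ (s + 3) :=
    mul_le_mul_of_nonneg_right (by linarith) hxs.le
  have h10 : 0 < ε * x ^ (s + 3) := by positivity
  nlinarith

end Pool.Agent.Results.MP_79ff05_co.Supersaturation
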